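import Mathlib

set_option autoImplicit false

/-!
# W1 (MP_b39724_nt), chapter FINITE PLACES: definitions

`X : Blk R` is a pair of symmetric 2x2 matrices `b`, `c`; `w = (p1, p2, q1, q2) : Fin 4 → R`.
`fb X x1 x2 y1 y2 = x^T adj(b) y`, `fc` the same for `c`; `D1 = det b`, `D3 = det c`, `D2` the mixed determinant,
`E = D1 D3 - D2 ^ 2`. `Eqs X w r s U V`: the equations (1)-(4), `U = kappa u`, `V = kappa v`. `br X w w' = [w, w']` is the
determinant of the 4x4 matrix with columns `(b;c)` (two columns), `w`, `w'`. `tt X t0 t1 = (b t, c t)`. `eb X w = eta_b`,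
`ec X w = eta_c`. `Adm m U V`: `U`, `V` nonzero, coprime and squarefree outside `m`, valuations at most those of `m` at the
primes that contain `m`.
-/

namespace Pool.Agent.H28.FP

open IsDedekindDomain

/-- a pair of symmetric 2x2 matrices -/
structure Blk (R : Type*) where
  b11 : R
  b12 : R
  b22 : R
  c11 : R
  c12 : R
  c22 : R

section ring

variable {R : Type*} [CommRing R]

/-- determinant of `b` -/
def Blk.D1 (X : Blk R) : R := X.b11 * X.b22 - X.b12 ^ 2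

/-- determinant of `c` -/
def Blk.D3 (X : Blk R) : R := X.c11 * X.c22 - X.c12 ^ 2

/-- mixed determinant -/
def Blk.D2 (X : Blk R) : R := X.b11 * X.c22 + X.b22 * X.c11 - 2 * X.b12 * X.c12

def Blk.E (X : Blk R) : R := X.D1 * X.D3 - X.D2 ^ 2

/-- `D1, D2, D3` as a vector -/
def Dv (X : Blk R) : Fin 3 → R := ![X.D1, X.D2, X.D3]

/-- exchange of `b` and `c` -/
def Blk.sw (X : Blk R) : Blk R := ⟨X.c11, X.c12, X.c22, X.b11, X.b12, X.b22⟩

/-- exchange of `p` and `q` -/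
def swv (w : Fin 4 → R) : Fin 4 → R := ![w 2, w 3, w 0, w 1]

/-- `x^T adj(b) y` -/
def fb (X : Blk R) (x1 x2 y1 y2 : R) : R :=
  X.b22 * x1 * y1 - X.b12 * (x1 * y2 + x2 * y1) + X.b11 * x2 * y2

/-- `x^T adj(c) y` -/
def fc (X : Blk R) (x1 x2 y1 y2 : R) : R :=
  X.c22 * x1 * y1 - X.c12 * (x1 * y2 + x2 * y1) + X.c11 * x2 * y2

/-- the equations (1)-(4) -/
def Eqs (X : Blk R) (w : Fin 4 → R) (r s U V : R) : Prop :=
  r * X.D1 - fb X (w 0) (w 1) (w 0) (w 1) = U ∧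
  r * X.D2 + s * X.D1 = fc X (w 0) (w 1) (w 0) (w 1) + 2 * fb X (w 0) (w 1) (w 2) (w 3) ∧
  r * X.D3 + s * X.D2 = fb X (w 2) (w 3) (w 2) (w 3) + 2 * fc X (w 0) (w 1) (w 2) (w 3) ∧
  s * X.D3 - fc X (w 2) (w 3) (w 2) (w 3) = V

/-- the 4x4 determinant `[w, z]` -/
def br (X : Blk R) (w z : Fin 4 → R) : R :=
  X.D1 * (w 2 * z 3 - w 3 * z 2) - (X.b11 * X.c12 - X.b12 * X.c11) * (w 1 * z 3 - w 3 * z 1) +
  (X.b11 * X.c22 - X.b12 * X.c12) * (w 1 * z 2 - w 2 * z 1) +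
  (X.b12 * X.c12 - X.b22 * X.c11) * (w 0 * z 3 - w 3 * z 0) -
  (X.b12 * X.c22 - X.b22 * X.c12) * (w 0 * z 2 - w 2 * z 0) + X.D3 * (w 0 * z 1 - w 1 * z 0)

/-- `(b t, c t)` -/
def tt (X : Blk R) (t0 t1 : R) : Fin 4 → R :=
  ![X.b11 * t0 + X.b12 * t1, X.b12 * t0 + X.b22 * t1, X.c11 * t0 + X.c12 * t1,
    X.c12 * t0 + X.c22 * t1]

/-- `eta_b = c adj(b) p - D1 q` -/
def eb (X : Blk R) (w : Fin 4 → R) : R × R :=
  (X.c11 * (X.b22 * w 0 - X.b12 * w 1) + X.c12 * (X.b11 * w 1 - X.b12 * w 0) - X.D1 * w 2,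
   X.c12 * (X.b22 * w 0 - X.b12 * w 1) + X.c22 * (X.b11 * w 1 - X.b12 * w 0) - X.D1 * w 3)

end ring

section dedekind

variable {O : Type*} [CommRing O] [IsDedekindDomain O]

/-- `U`, `V` are nonzero, coprime and squarefree outside `m` -/
def Adm (m U V : O) : Prop :=
  U ≠ 0 ∧ V ≠ 0 ∧ ∀ l : HeightOneSpectrum O,
    (m ∉ l.asIdeal → (U ∉ l.asIdeal ∨ V ∉ l.asIdeal) ∧ U ∉ l.asIdeal ^ 2 ∧ V ∉ l.asIdeal ^ 2) ∧
    (m ∈ l.asIdeal → ∀ n : ℕ, (U ∈ l.asIdeal ^ n → m ∈ l.asIdeal ^ n) ∧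
      (V ∈ l.asIdeal ^ n → m ∈ l.asIdeal ^ n))

/-- the third columns `w = (p, q)` that complete the block `X` -/
def Sol (m : O) (X : Blk O) : Set (Fin 4 → O) :=
  {w | ∃ r s U V : O, Adm m U V ∧ Eqs X w r s U V}

/-- the exponent of `l` in `x` -/
noncomputable def od (l : HeightOneSpectrum O) (x : O) : ℕ :=
  (Associates.mk l.asIdeal).count (Associates.mk (Ideal.span {x})).factors

end dedekind

end Pool.Agent.H28.FP
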