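import Mathlib
import Pool.Agent.H28.FP.Defs

set_option autoImplicit false

/-!
# W1, FINITE PLACES: polynomial identities (proved)
-/

namespace Pool.Agent.H28.FP

variable {R : Type*} [CommRing R]

/-- (4.1) -/
theorem idn_E (X : Blk R) (w : Fin 4 → R) (r s U V : R) (h : Eqs X w r s U V) :
    X.E * U = fb X (eb X w).1 (eb X w).2 (eb X w).1 (eb X w).2 := by
  obtain ⟨h1, h2, h3, h4⟩ := h
  rw [← h1]
  simp only [Blk.E, Blk.D1, Blk.D2, Blk.D3, fb, fc, eb] at h2 h3 ⊢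
  linear_combination (X.b11 * X.b22 - X.b12 ^ 2) ^ 2 * h3 -
    (X.b11 * X.b22 - X.b12 ^ 2) * (X.b11 * X.c22 + X.b22 * X.c11 - 2 * X.b12 * X.c12) * h2

/-- (4.3) -/
theorem idn_w (X : Blk R) (w z : Fin 4 → R) :
    (eb X w).1 * (eb X z).2 - (eb X w).2 * (eb X z).1 = X.D1 * br X w z := by
  simp only [Blk.D1, Blk.D3, eb, br]
  ring

theorem sw_D1 (X : Blk R) : X.sw.D1 = X.D3 := rfl

theorem sw_D3 (X : Blk R) : X.sw.D3 = X.D1 := rfl

theorem sw_D2 (X : Blk R) : X.sw.D2 = X.D2 := by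
  simp only [Blk.sw, Blk.D2]
  ring

theorem sw_E (X : Blk R) : X.sw.E = X.E := by
  simp only [Blk.E, sw_D1, sw_D2, sw_D3]
  ring

theorem sw_br (X : Blk R) (w z : Fin 4 → R) : br X.sw (swv w) (swv z) = br X w z := by
  simp only [Blk.sw, br, swv, Blk.D1, Blk.D3, Matrix.cons_val]
  ring

theorem sw_Eqs (X : Blk R) (w : Fin 4 → R) (r s U V : R) (h : Eqs X w r s U V) :
    Eqs X.sw (swv w) s r V U := by
  obtain ⟨h1, h2, h3, h4⟩ := h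
  refine ⟨?_, ?_, ?_, ?_⟩
  · simpa only [Blk.sw, swv, Blk.D1, Blk.D3, fb, fc, Matrix.cons_val] using h4
  · simp only [Blk.sw, swv, Blk.D1, Blk.D2, Blk.D3, fb, fc, Matrix.cons_val] at h3 ⊢
    linear_combination h3
  · simp only [Blk.sw, swv, Blk.D1, Blk.D2, Blk.D3, fb, fc, Matrix.cons_val] at h2 ⊢
    linear_combination h2
  · simpa only [Blk.sw, swv, Blk.D1, Blk.D3, fb, fc, Matrix.cons_val] using h1

/-- Gram identities -/
theorem gram1 (X : Blk R) (p1 p2 q1 q2 : R) :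
    fb X p1 p2 p1 p2 * fb X q1 q2 q1 q2 - fb X p1 p2 q1 q2 ^ 2 = X.D1 * (p1 * q2 - p2 * q1) ^ 2 := by
  simp only [Blk.D1, fb]
  ring

theorem gram3 (X : Blk R) (p1 p2 q1 q2 : R) :
    fc X p1 p2 p1 p2 * fc X q1 q2 q1 q2 - fc X p1 p2 q1 q2 ^ 2 = X.D3 * (p1 * q2 - p2 * q1) ^ 2 := by
  simp only [Blk.D3, fc]
  ring

theorem gram2 (X : Blk R) (p1 p2 q1 q2 : R) :
    fb X p1 p2 p1 p2 * fc X q1 q2 q1 q2 + fc X p1 p2 p1 p2 * fb X q1 q2 q1 q2 -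
      2 * fb X p1 p2 q1 q2 * fc X p1 p2 q1 q2 = X.D2 * (p1 * q2 - p2 * q1) ^ 2 := by
  simp only [Blk.D2, fb, fc]
  ring

/-- proportionality -/
theorem prp1 (X : Blk R) :
    (X.b12 * X.c22 - X.b22 * X.c12) ^ 2 = X.b22 * X.c22 * X.D2 - X.b22 ^ 2 * X.D3 - X.c22 ^ 2 * X.D1 := by
  simp only [Blk.D1, Blk.D2, Blk.D3]
  ring

theorem prp2 (X : Blk R) :
    (X.b12 * X.c11 - X.b11 * X.c12) ^ 2 = X.b11 * X.c11 * X.D2 - X.b11 ^ 2 * X.D3 - X.c11 ^ 2 * X.D1 := by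
  simp only [Blk.D1, Blk.D2, Blk.D3]
  ring

theorem prp3 (X : Blk R) :
    (X.b22 * X.c11 - X.b11 * X.c22) ^ 2 = X.D2 ^ 2 + 4 * X.D2 * X.b12 * X.c12 - 4 * X.b12 ^ 2 * X.D3 -
      4 * X.D1 * X.c12 ^ 2 - 4 * X.D1 * X.D3 := by
  simp only [Blk.D1, Blk.D2, Blk.D3]
  ring

/-- `a Aq - h Ap = D1 (p^q) (-p2, p1)` -/
theorem vec1 (X : Blk R) (p1 p2 q1 q2 : R) :
    fb X p1 p2 p1 p2 * (X.b22 * q1 - X.b12 * q2) - fb X p1 p2 q1 q2 * (X.b22 * p1 - X.b12 * p2) =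
      -(X.D1 * (p1 * q2 - p2 * q1) * p2) := by
  simp only [Blk.D1, fb]
  ring

theorem vec2 (X : Blk R) (p1 p2 q1 q2 : R) :
    fb X p1 p2 p1 p2 * (X.b11 * q2 - X.b12 * q1) - fb X p1 p2 q1 q2 * (X.b11 * p2 - X.b12 * p1) =
      X.D1 * (p1 * q2 - p2 * q1) * p1 := by
  simp only [Blk.D1, fb]
  ring

/-- `adj(b) c t + adj(c) b t = D2 t` -/
theorem mix1 (X : Blk R) (t0 t1 : R) :
    (X.b22 * (X.c11 * t0 + X.c12 * t1) - X.b12 * (X.c12 * t0 + X.c22 * t1)) +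
      (X.c22 * (X.b11 * t0 + X.b12 * t1) - X.c12 * (X.b12 * t0 + X.b22 * t1)) = X.D2 * t0 := by
  simp only [Blk.D2]
  ring

theorem mix2 (X : Blk R) (t0 t1 : R) :
    (X.b11 * (X.c12 * t0 + X.c22 * t1) - X.b12 * (X.c11 * t0 + X.c12 * t1)) +
      (X.c11 * (X.b12 * t0 + X.b22 * t1) - X.c12 * (X.b11 * t0 + X.b12 * t1)) = X.D2 * t1 := by
  simp only [Blk.D2]
  ring

/-- `D1 t = adj(b) b t` -/
theorem cra1 (X : Blk R) (t0 t1 : R) :
    X.b22 * (X.b11 * t0 + X.b12 * t1) - X.b12 * (X.b12 * t0 + X.b22 * t1) = X.D1 * t0 := by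
  simp only [Blk.D1]
  ring

theorem cra2 (X : Blk R) (t0 t1 : R) :
    X.b11 * (X.b12 * t0 + X.b22 * t1) - X.b12 * (X.b11 * t0 + X.b12 * t1) = X.D1 * t1 := by
  simp only [Blk.D1]
  ring

/-- `T` is in the kernel of `br` -/
theorem br_tt (X : Blk R) (t0 t1 : R) (w : Fin 4 → R) : br X (tt X t0 t1) w = 0 := by
  simp only [br, tt, Blk.D1, Blk.D3, Matrix.cons_val]
  ring

theorem br_self (X : Blk R) (w : Fin 4 → R) : br X w w = 0 := by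
  simp only [br]
  ring

theorem br_swap (X : Blk R) (w z : Fin 4 → R) : br X z w = -br X w z := by
  simp only [br]
  ring

theorem br_add (X : Blk R) (w w' z : Fin 4 → R) : br X (w + w') z = br X w z + br X w' z := by
  simp only [br, Pi.add_apply]
  ring

theorem br_smul (X : Blk R) (a : R) (w z : Fin 4 → R) : br X (a • w) z = a * br X w z := by
  simp only [br, Pi.smul_apply, smul_eq_mul]
  ring

/-- `br` modulo the entries of `c` -/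
theorem br_modc (X : Blk R) (w z : Fin 4 → R) :
    br X w z - X.D1 * (w 2 * z 3 - w 3 * z 2) =
      X.c11 * (X.b12 * (w 1 * z 3 - w 3 * z 1) - X.b22 * (w 0 * z 3 - w 3 * z 0) +
        X.c22 * (w 0 * z 1 - w 1 * z 0)) +
      X.c12 * (-(X.b11 * (w 1 * z 3 - w 3 * z 1)) - X.b12 * (w 1 * z 2 - w 2 * z 1) +
        X.b12 * (w 0 * z 3 - w 3 * z 0) + X.b22 * (w 0 * z 2 - w 2 * z 0) -
        X.c12 * (w 0 * z 1 - w 1 * z 0)) +
      X.c22 * (X.b11 * (w 1 * z 2 - w 2 * z 1) - X.b12 * (w 0 * z 2 - w 2 * z 0)) := by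
  simp only [br, Blk.D1, Blk.D3]
  ring

end Pool.Agent.H28.FP
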