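import Mathlib
import Pool.Agent.H28.FP.Idn

set_option autoImplicit false

/-!
# W1, FINITE PLACES, G1: `9 U^2 V^2` is in the ideal generated by `D1, D2, D3` (proved)
-/

namespace Pool.Agent.H28.FP

variable {R : Type*} [CommRing R]

private theorem g1aux (a h a' c0 c1 c2 U V : R) (h1 : -a = U) (h2 : c0 + 2 * h = 0)
    (h3 : a' + 2 * c1 = 0) (h4 : -c2 = V) (g1 : a * a' - h ^ 2 = 0) (g3 : c0 * c2 - c1 ^ 2 = 0)
    (g2 : a * c2 + c0 * a' - 2 * h * c1 = 0) : 9 * U ^ 2 * V ^ 2 = 0 := by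
  have ha : a = -U := by rw [← h1]; ring
  have hc2 : c2 = -V := by rw [← h4]; ring
  have hc0 : c0 = -(2 * h) := by linear_combination h2
  have ha' : a' = -(2 * c1) := by linear_combination h3
  have e1 : 2 * U * c1 - h ^ 2 = 0 := by rw [ha, ha'] at g1; linear_combination g1
  have e2 : 2 * V * h - c1 ^ 2 = 0 := by rw [hc0, hc2] at g3; linear_combination g3
  have e3 : U * V + 2 * h * c1 = 0 := by rw [ha, hc2, hc0, ha'] at g2; linear_combination g2
  linear_combination 9 * (U * V - 2 * h * c1) * e3 +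
    4 * (4 * h * c1 * e3 - 2 * V * h * e1 - h ^ 2 * e2)

theorem g1 (X : Blk R) (w : Fin 4 → R) (r s U V : R) (h : Eqs X w r s U V) :
    9 * U ^ 2 * V ^ 2 ∈ Ideal.span {X.D1, X.D2, X.D3} := by
  obtain ⟨h1, h2, h3, h4⟩ := h
  obtain ⟨I, hI⟩ : ∃ I : Ideal R, I = Ideal.span {X.D1, X.D2, X.D3} := ⟨_, rfl⟩
  have hD1 : Ideal.Quotient.mk I X.D1 = 0 := by
    rw [Ideal.Quotient.eq_zero_iff_mem, hI]
    exact Ideal.subset_span (by simp)
  have hD2 : Ideal.Quotient.mk I X.D2 = 0 := by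
    rw [Ideal.Quotient.eq_zero_iff_mem, hI]
    exact Ideal.subset_span (by simp)
  have hD3 : Ideal.Quotient.mk I X.D3 = 0 := by
    rw [Ideal.Quotient.eq_zero_iff_mem, hI]
    exact Ideal.subset_span (by simp)
  rw [← hI, ← Ideal.Quotient.eq_zero_iff_mem]
  have k1 := congrArg (Ideal.Quotient.mk I) h1
  have k2 := congrArg (Ideal.Quotient.mk I) h2
  have k3 := congrArg (Ideal.Quotient.mk I) h3
  have k4 := congrArg (Ideal.Quotient.mk I) h4
  have m1 := congrArg (Ideal.Quotient.mk I) (gram1 X (w 0) (w 1) (w 2) (w 3))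
  have m2 := congrArg (Ideal.Quotient.mk I) (gram2 X (w 0) (w 1) (w 2) (w 3))
  have m3 := congrArg (Ideal.Quotient.mk I) (gram3 X (w 0) (w 1) (w 2) (w 3))
  simp only [map_sub, map_add, map_mul, map_pow, map_ofNat, hD1, hD2, hD3, mul_zero, zero_mul,
    zero_sub, add_zero] at k1 k2 k3 k4 m1 m2 m3
  simp only [map_mul, map_pow, map_ofNat]
  exact g1aux _ _ _ _ _ _ _ _ k1 k2.symm k3.symm k4 m1 m3 m2

end Pool.Agent.H28.FP
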