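import Mathlib
import Pool.Agent.H28.FP.Idn

set_option autoImplicit false

/-!
# W1, FINITE PLACES, G2: a prime ideal that contains `D1, D2, D3` and exactly one of `U, V`

PROOF. Work modulo `l` (a prime ideal). Write `a = fb p p`, `h = fb p q`, `a' = fb q q`, `c0 = fc p p`, `c1 = fc p q`, `c2 = fc q q`.
`Eqs` gives `a = -U`, `c0 = -2 h`, `a' = -2 c1`, `c2 = -V = 0`; gram1: `a a' = h^2`, so `2 U c1 = h^2`; gram3: `c0 c2 = c1^2`, so
`c1 ∈ l`, hence `h ∈ l`, `c0 ∈ l`. By prp1, prp2, prp3 the squares of the three minors of `(b; c)` are in `l`, so the minors are;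
`a * c_ij - c0 * b_ij ∈ l` (expand `a`, `c0`: a combination of the minors), so `a c_ij ∈ l` and `c_ij ∈ l` as `a ∉ l`.
vec1, vec2: `a (A q)_i = h (A p)_i + D1 (..)`, so `(A q)_i ∈ l`.
-/

namespace Pool.Agent.H28.FP

variable {R : Type*} [CommRing R]

theorem g2 (l : Ideal R) [hl : l.IsPrime] (X : Blk R) (w : Fin 4 → R) (r s U V : R)
    (h : Eqs X w r s U V) (hD1 : X.D1 ∈ l) (hD2 : X.D2 ∈ l) (hD3 : X.D3 ∈ l) (hV : V ∈ l)
    (hU : U ∉ l) :
    X.c11 ∈ l ∧ X.c12 ∈ l ∧ X.c22 ∈ l ∧ fb X (w 0) (w 1) (w 2) (w 3) ∈ l ∧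
      fc X (w 0) (w 1) (w 2) (w 3) ∈ l ∧ fc X (w 0) (w 1) (w 0) (w 1) ∈ l ∧
      X.b22 * w 2 - X.b12 * w 3 ∈ l ∧ X.b11 * w 3 - X.b12 * w 2 ∈ l := by
  obtain ⟨h1, h2, h3, h4⟩ := h
  have gr1 := gram1 X (w 0) (w 1) (w 2) (w 3)
  have gr3 := gram3 X (w 0) (w 1) (w 2) (w 3)
  have ha : fb X (w 0) (w 1) (w 0) (w 1) ∉ l := by
    intro ha
    apply hU
    rw [← h1]
    exact l.sub_mem (l.mul_mem_left _ hD1) ha
  have hc2 : fc X (w 2) (w 3) (w 2) (w 3) ∈ l := by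
    have : fc X (w 2) (w 3) (w 2) (w 3) = s * X.D3 - V := by rw [← h4]; ring
    rw [this]
    exact l.sub_mem (l.mul_mem_left _ hD3) hV
  have hc1 : fc X (w 0) (w 1) (w 2) (w 3) ∈ l := by
    apply hl.mem_of_pow_mem 2
    have : fc X (w 0) (w 1) (w 2) (w 3) ^ 2 = fc X (w 0) (w 1) (w 0) (w 1) *
        fc X (w 2) (w 3) (w 2) (w 3) - X.D3 * (w 0 * w 3 - w 1 * w 2) ^ 2 := by
      linear_combination -gr3
    rw [this]
    exact l.sub_mem (l.mul_mem_left _ hc2) (l.mul_mem_right _ hD3)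
  have hh : fb X (w 0) (w 1) (w 2) (w 3) ∈ l := by
    apply hl.mem_of_pow_mem 2
    have : fb X (w 0) (w 1) (w 2) (w 3) ^ 2 = fb X (w 0) (w 1) (w 0) (w 1) *
        (r * X.D3 + s * X.D2 - 2 * fc X (w 0) (w 1) (w 2) (w 3)) -
        X.D1 * (w 0 * w 3 - w 1 * w 2) ^ 2 := by
      rw [h3]
      linear_combination -gr1
    rw [this]
    refine l.sub_mem (l.mul_mem_left _ (l.sub_mem (l.add_mem (l.mul_mem_left _ hD3)
      (l.mul_mem_left _ hD2)) (l.mul_mem_left _ hc1))) (l.mul_mem_right _ hD1)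
  have hc0 : fc X (w 0) (w 1) (w 0) (w 1) ∈ l := by
    have : fc X (w 0) (w 1) (w 0) (w 1) = r * X.D2 + s * X.D1 -
        2 * fb X (w 0) (w 1) (w 2) (w 3) := by rw [h2]; ring
    rw [this]
    exact l.sub_mem (l.add_mem (l.mul_mem_left _ hD2) (l.mul_mem_left _ hD1)) (l.mul_mem_left _ hh)
  have m1 : X.b12 * X.c22 - X.b22 * X.c12 ∈ l := by
    apply hl.mem_of_pow_mem 2
    rw [prp1]
    exact l.sub_mem (l.sub_mem (l.mul_mem_left _ hD2) (l.mul_mem_left _ hD3)) (l.mul_mem_left _ hD1)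
  have m2 : X.b12 * X.c11 - X.b11 * X.c12 ∈ l := by
    apply hl.mem_of_pow_mem 2
    rw [prp2]
    exact l.sub_mem (l.sub_mem (l.mul_mem_left _ hD2) (l.mul_mem_left _ hD3)) (l.mul_mem_left _ hD1)
  have m3 : X.b22 * X.c11 - X.b11 * X.c22 ∈ l := by
    apply hl.mem_of_pow_mem 2
    have : (X.b22 * X.c11 - X.b11 * X.c22) ^ 2 = X.D2 * (X.D2 + 4 * X.b12 * X.c12) -
        4 * X.b12 ^ 2 * X.D3 - X.D1 * (4 * X.c12 ^ 2 + 4 * X.D3) := by
      rw [prp3]; ring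
    rw [this]
    exact l.sub_mem (l.sub_mem (l.mul_mem_right _ hD2) (l.mul_mem_left _ hD3)) (l.mul_mem_right _ hD1)
  have key : ∀ x y : R, fb X (w 0) (w 1) (w 0) (w 1) * y - fc X (w 0) (w 1) (w 0) (w 1) * x ∈ l →
      y ∈ l := by
    intro x y hxy
    have h5 : fb X (w 0) (w 1) (w 0) (w 1) * y ∈ l := by
      have := l.add_mem hxy (l.mul_mem_right x hc0)
      rwa [sub_add_cancel] at this
    exact (hl.mem_or_mem h5).resolve_left ha
  have k11 : X.c11 ∈ l := by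
    apply key X.b11
    have : fb X (w 0) (w 1) (w 0) (w 1) * X.c11 - fc X (w 0) (w 1) (w 0) (w 1) * X.b11 =
        (w 0) ^ 2 * (X.b22 * X.c11 - X.b11 * X.c22) -
        2 * w 0 * w 1 * (X.b12 * X.c11 - X.b11 * X.c12) := by
      simp only [fb, fc]; ring
    rw [this]
    exact l.sub_mem (l.mul_mem_left _ m3) (l.mul_mem_left _ m2)
  have k22 : X.c22 ∈ l := by
    apply key X.b22
    have : fb X (w 0) (w 1) (w 0) (w 1) * X.c22 - fc X (w 0) (w 1) (w 0) (w 1) * X.b22 =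
        -(2 * w 0 * w 1 * (X.b12 * X.c22 - X.b22 * X.c12)) -
        (w 1) ^ 2 * (X.b22 * X.c11 - X.b11 * X.c22) := by
      simp only [fb, fc]; ring
    rw [this]
    exact l.sub_mem (l.neg_mem (l.mul_mem_left _ m1)) (l.mul_mem_left _ m3)
  have k12 : X.c12 ∈ l := by
    apply key X.b12
    have : fb X (w 0) (w 1) (w 0) (w 1) * X.c12 - fc X (w 0) (w 1) (w 0) (w 1) * X.b12 =
        -((w 0) ^ 2 * (X.b12 * X.c22 - X.b22 * X.c12)) -
        (w 1) ^ 2 * (X.b12 * X.c11 - X.b11 * X.c12) := by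
      simp only [fb, fc]; ring
    rw [this]
    exact l.sub_mem (l.neg_mem (l.mul_mem_left _ m1)) (l.mul_mem_left _ m2)
  refine ⟨k11, k12, k22, hh, hc1, hc0, ?_, ?_⟩
  · have v1 := vec1 X (w 0) (w 1) (w 2) (w 3)
    have h5 : fb X (w 0) (w 1) (w 0) (w 1) * (X.b22 * w 2 - X.b12 * w 3) ∈ l := by
      have : fb X (w 0) (w 1) (w 0) (w 1) * (X.b22 * w 2 - X.b12 * w 3) =
          fb X (w 0) (w 1) (w 2) (w 3) * (X.b22 * w 0 - X.b12 * w 1) -
          X.D1 * ((w 0 * w 3 - w 1 * w 2) * w 1) := by linear_combination v1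
      rw [this]
      exact l.sub_mem (l.mul_mem_right _ hh) (l.mul_mem_right _ hD1)
    exact (hl.mem_or_mem h5).resolve_left ha
  · have v1 := vec2 X (w 0) (w 1) (w 2) (w 3)
    have h5 : fb X (w 0) (w 1) (w 0) (w 1) * (X.b11 * w 3 - X.b12 * w 2) ∈ l := by
      have : fb X (w 0) (w 1) (w 0) (w 1) * (X.b11 * w 3 - X.b12 * w 2) =
          fb X (w 0) (w 1) (w 2) (w 3) * (X.b11 * w 1 - X.b12 * w 0) +
          X.D1 * ((w 0 * w 3 - w 1 * w 2) * w 0) := by linear_combination v1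
      rw [this]
      exact l.add_mem (l.mul_mem_right _ hh) (l.mul_mem_right _ hD1)
    exact (hl.mem_or_mem h5).resolve_left ha

end Pool.Agent.H28.FP
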