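import Mathlib
import Pool.Agent.H28.FP.Defs

set_option autoImplicit false

/-!
# W1, FINITE PLACES: valuations of a Dedekind domain (proved)
-/

namespace Pool.Agent.H28.FP

open IsDedekindDomain WithZero

variable {O : Type*} [CommRing O] [IsDedekindDomain O] (l : HeightOneSpectrum O)

theorem iv_eq {x : O} (hx : x ≠ 0) : l.intValuation x = exp (-(od l x : ℤ)) :=
  l.intValuation_if_neg hx

theorem mem_iff {x : O} (hx : x ≠ 0) (n : ℕ) : x ∈ l.asIdeal ^ n ↔ n ≤ od l x := by
  rw [← l.intValuation_le_pow_iff_mem, iv_eq l hx, exp_le_exp]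
  omega

theorem mem_od (x : O) (hx : x ≠ 0) : x ∈ l.asIdeal ^ od l x := (mem_iff l hx _).2 le_rfl

theorem mul_mem_pow {x y : O} {m n : ℕ} (hx : x ∈ l.asIdeal ^ m) (hy : y ∈ l.asIdeal ^ n) :
    x * y ∈ l.asIdeal ^ (m + n) := by
  rw [pow_add]
  exact Ideal.mul_mem_mul hx hy

theorem iv_one {a : O} (ha : a ∉ l.asIdeal) : l.intValuation a = 1 := by
  refine le_antisymm (l.intValuation_le_one a) ?_
  by_contra h
  exact ha ((l.intValuation_lt_one_iff_mem a).1 (not_le.1 h))

theorem cancel {a x : O} {n : ℕ} (ha : a ∉ l.asIdeal) (h : a * x ∈ l.asIdeal ^ n) :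
    x ∈ l.asIdeal ^ n := by
  rw [← l.intValuation_le_pow_iff_mem] at h ⊢
  rwa [map_mul, iv_one l ha, one_mul] at h

theorem pow_antitone {m n : ℕ} (h : m ≤ n) : l.asIdeal ^ n ≤ l.asIdeal ^ m := Ideal.pow_le_pow_right h

/-- local divisibility at all primes gives divisibility -/
theorem dvd_of_local {e x : O} (he : e ≠ 0) (h : ∀ l : HeightOneSpectrum O, x ∈ l.asIdeal ^ od l e) :
    e ∣ x := by
  have hK : ∀ l : HeightOneSpectrum O,
      l.valuation (FractionRing O) (algebraMap O (FractionRing O) x /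
        algebraMap O (FractionRing O) e) ≤ 1 := by
    intro l
    have h1 : l.intValuation x ≤ l.intValuation e := by
      rw [iv_eq l he, l.intValuation_le_pow_iff_mem]
      exact h l
    rw [map_div₀, HeightOneSpectrum.valuation_of_algebraMap, HeightOneSpectrum.valuation_of_algebraMap]
    exact (div_le_one₀ (zero_lt_iff.2 (l.intValuation_ne_zero e he))).2 h1
  obtain ⟨y, hy⟩ := HeightOneSpectrum.mem_integers_of_valuation_le_one (R := O) (FractionRing O) _ hK
  refine ⟨y, ?_⟩
  apply IsFractionRing.injective O (FractionRing O)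
  have he' : algebraMap O (FractionRing O) e ≠ 0 := fun h0 =>
    he ((map_eq_zero_iff _ (IsFractionRing.injective O (FractionRing O))).1 h0)
  rw [map_mul, hy]
  field_simp

end Pool.Agent.H28.FP
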